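import Pool.Agent.Lib.MP_134bf7_pr.FC.Defs
import Pool.Agent.Lib.MP_134bf7_pr.RL.Pr

/-!
# Soundness of the computable lower bounds
-/

namespace Pool.Agent.Lib.MP_134bf7_pr.FC

open Finset Pool.Agent.Lib.MP_134bf7_pr.RL
open scoped ENNReal NNReal

/-- bit `k` of `m` -/
theorem bit_eq (m k : ℕ) : Nat.land 1 (Nat.shiftRight m k) = (m.testBit k).toNat := by
  change 1 &&& (m >>> k) = _
  rw [Nat.one_and_eq_mod_two, Nat.testBit_eq_decide_div_mod_eq, Nat.shiftRight_eq_div_pow]
  rcases Nat.mod_two_eq_zero_or_one (m / 2 ^ k) with h | h <;> rw [h] <;> rfl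

/-- means of the cycle counts for the lengths `l, l + 1, …` -/
noncomputable def ml (l K : ℕ) (i : Fin K) : ℝ≥0 := 1 / ((l : ℝ≥0) + ((i : ℕ) : ℝ≥0))

/-- `k` is a length in the mask `m` plus the total length of a sub-configuration of `a` -/
def hit {K : ℕ} (k l m : ℕ) (a : Fin K → ℕ) : Prop :=
  ∃ c : Fin K → ℕ, (∀ i, c i ≤ a i) ∧
    ∃ t, m.testBit t = true ∧ t + ∑ i : Fin K, (l + (i : ℕ)) * c i = k

/-- the mask after `x` cycles of length `l` -/
def mk (l m : ℕ) : ℕ → ℕ
  | 0 => m
  | x + 1 => mk l m x ||| (mk l m x <<< l)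

theorem mk_bit (l m : ℕ) : ∀ x t : ℕ, (mk l m x).testBit t = true ↔
    ∃ y ≤ x, ∃ s, m.testBit s = true ∧ s + l * y = t := by
  intro x
  induction x with
  | zero =>
    intro t
    constructor
    · intro h
      exact ⟨0, le_rfl, t, h, by simp⟩
    · rintro ⟨y, hy, s, hs, rfl⟩
      obtain rfl : y = 0 := by omega
      simpa [mk] using hs
  | succ x ih =>
    intro t
    rw [mk, Nat.testBit_or, Nat.testBit_shiftLeft, Bool.or_eq_true, Bool.and_eq_true,
      decide_eq_true_eq, ih, ih]
    constructor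
    · rintro (⟨y, hy, s, hs, h⟩ | ⟨hlt, y, hy, s, hs, h⟩)
      · exact ⟨y, by omega, s, hs, h⟩
      · refine ⟨y + 1, by omega, s, hs, ?_⟩
        rw [mul_add, mul_one]
        omega
    · rintro ⟨y, hy, s, hs, h⟩
      rcases Nat.lt_or_ge x y with hxy | hxy
      · obtain rfl : y = x + 1 := by omega
        rw [mul_add, mul_one] at h
        exact Or.inr ⟨by omega, x, le_rfl, s, hs, by omega⟩
      · exact Or.inl ⟨y, hxy, s, hs, h⟩

theorem hit_cons {K : ℕ} (k l m x : ℕ) (a : Fin K → ℕ) :
    hit k l m (Fin.cons x a : Fin (K + 1) → ℕ) ↔ hit k (l + 1) (mk l m x) a := by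
  constructor
  · rintro ⟨c, hc, t, ht, he⟩
    rw [Fin.sum_univ_succ] at he
    refine ⟨fun i => c i.succ, fun i => ?_, t + l * c 0, ?_, ?_⟩
    · have := hc i.succ
      rwa [Fin.cons_succ] at this
    · rw [mk_bit]
      have := hc 0
      rw [Fin.cons_zero] at this
      exact ⟨c 0, this, t, ht, rfl⟩
    · rw [← he]
      simp only [Fin.val_zero, add_zero, Fin.val_succ]
      rw [add_assoc]
      congr 2
      refine Finset.sum_congr rfl fun i _ => ?_
      ring
  · rintro ⟨c, hc, t, ht, he⟩
    rw [mk_bit] at ht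
    obtain ⟨y, hy, s, hs, hst⟩ := ht
    refine ⟨Fin.cons y c, fun i => ?_, s, hs, ?_⟩
    · refine Fin.cases ?_ (fun i => ?_) i
      · simpa using hy
      · simpa using hc i
    · rw [Fin.sum_univ_succ, ← he, ← hst]
      simp only [Fin.val_zero, add_zero, Fin.val_succ, Fin.cons_zero, Fin.cons_succ]
      rw [add_assoc]
      congr 2
      refine Finset.sum_congr rfl fun i _ => ?_
      ring

/-- weight of `x` cycles of length `l` -/
noncomputable def vv (l x : ℕ) : ℝ≥0 := (1 / (l : ℝ≥0)) ^ x / (x.factorial : ℝ≥0)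

theorem wt_cons {K : ℕ} (l x : ℕ) (a : Fin K → ℕ) :
    wt (ml l (K + 1)) (Fin.cons x a : Fin (K + 1) → ℕ) = vv l x * wt (ml (l + 1) K) a := by
  unfold wt vv
  rw [Fin.prod_univ_succ]
  congr 1
  · simp [ml]
  · refine Finset.prod_congr rfl fun i _ => ?_
    rw [Fin.cons_succ]
    congr 2
    unfold ml
    rw [Fin.val_succ]
    push_cast
    congr 1
    ring

theorem Z_cons {K : ℕ} (l : ℕ) (F : (Fin (K + 1) → ℕ) → ℝ≥0∞) :
    Z (ml l (K + 1)) F = ∑' x : ℕ, (vv l x : ℝ≥0∞) *
      Z (ml (l + 1) K) (fun a => F (Fin.cons x a : Fin (K + 1) → ℕ)) := by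
  unfold Z
  rw [← (Fin.consEquiv (fun _ : Fin (K + 1) => ℕ)).tsum_eq, ENNReal.tsum_prod']
  refine tsum_congr fun x => ?_
  rw [← ENNReal.tsum_mul_left]
  refine tsum_congr fun a => ?_
  have e : (Fin.consEquiv (fun _ : Fin (K + 1) => ℕ)) (x, a) = (Fin.cons x a : Fin (K + 1) → ℕ) := rfl
  rw [e, wt_cons, ENNReal.coe_mul]
  ring

theorem Z_zero (l : ℕ) (F : (Fin 0 → ℕ) → ℝ≥0∞) : Z (ml l 0) F = F default := by
  unfold Z wt
  simp only [Finset.univ_eq_empty, Finset.prod_empty, ENNReal.coe_one, one_mul]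
  rw [tsum_eq_single default (fun b hb => absurd (Subsingleton.elim b default) hb)]

theorem vv_zero (l : ℕ) : vv l 0 = 1 := by simp [vv]

theorem vv_succ {l : ℕ} (hl : 1 ≤ l) (x : ℕ) :
    (vv l (x + 1) : ℝ≥0∞) = (vv l x : ℝ≥0∞) / ((l * (x + 1) : ℕ) : ℝ≥0∞) := by
  have hl' : (l : ℝ≥0) ≠ 0 := by
    have : (0 : ℝ≥0) < l := by exact_mod_cast hl
    exact this.ne'
  have hx : ((x : ℝ≥0) + 1) ≠ 0 := by positivity
  have hf : ((x.factorial : ℕ) : ℝ≥0) ≠ 0 := by exact_mod_cast x.factorial_ne_zero
  have h : vv l (x + 1) = vv l x / ((l * (x + 1) : ℕ) : ℝ≥0) := by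
    unfold vv
    rw [Nat.factorial_succ, pow_succ]
    push_cast
    field_simp
  rw [h, ENNReal.coe_div]
  · simp
  · push_cast
    exact mul_ne_zero hl' hx

theorem div_le {w d : ℕ} (hd : 1 ≤ d) {W v : ℝ≥0∞} (h : (w : ℝ≥0∞) ≤ W * v) :
    ((w / d : ℕ) : ℝ≥0∞) ≤ W * (v / (d : ℝ≥0∞)) := by
  rw [← mul_div_assoc]
  have hd0 : (d : ℝ≥0∞) ≠ 0 := by
    exact_mod_cast Nat.one_le_iff_ne_zero.1 hd
  rw [ENNReal.le_div_iff_mul_le (Or.inl hd0) (Or.inl (ENNReal.natCast_ne_top d))]
  refine le_trans ?_ h
  exact_mod_cast Nat.div_mul_le_self w d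

theorem inn_le {s k thr l : ℕ} {f : ℕ → ℕ → ℕ} {φ : ℕ → ℝ≥0∞} {r : ℝ≥0∞} (hl : 1 ≤ l) (m0 : ℕ)
    (hf : ∀ (x w : ℕ) (W : ℝ≥0∞), (w : ℝ≥0∞) ≤ W * r →
      (f (mk l m0 x) w : ℝ≥0∞) ≤ W * φ (mk l m0 x)) :
    ∀ (n x w : ℕ) (W : ℝ≥0∞), (w : ℝ≥0∞) ≤ W * r * (vv l x : ℝ≥0∞) →
      (inn s k thr l f n x (mk l m0 x) w : ℝ≥0∞) ≤
        W * ∑' y, (vv l (x + y) : ℝ≥0∞) * φ (mk l m0 (x + y)) := by
  intro n
  induction n with
  | zero =>
    intro x w W _
    have : inn s k thr l f 0 x (mk l m0 x) w = 0 := rfl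
    rw [this, Nat.cast_zero]
    exact zero_le
  | succ n ih =>
    intro x w W hw
    have e : inn s k thr l f (n + 1) x (mk l m0 x) w =
        Bool.rec (motive := fun _ => ℕ) 0
          (Nat.rec (motive := fun _ => ℕ)
            (Nat.add (f (mk l m0 x) w)
              (Nat.rec (motive := fun _ => ℕ) 0
                (fun w' _ => Nat.rec (motive := fun _ => ℕ) 0
                  (fun m' _ => inn s k thr l f n (Nat.succ x) (Nat.succ m') (Nat.succ w'))
                  (mk l m0 (x + 1)))
                (w / (l * (x + 1)))))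
            (fun _ _ => 0) (Nat.land s (Nat.shiftRight (mk l m0 x) k)))
          (Nat.ble thr w) := rfl
    rw [e]
    cases Nat.ble thr w with
    | false => simp
    | true =>
      cases Nat.land s (Nat.shiftRight (mk l m0 x) k) with
      | succ _ => simp
      | zero =>
        have h1 : ((w / (l * (x + 1)) : ℕ) : ℝ≥0∞) ≤ W * r * (vv l (x + 1) : ℝ≥0∞) := by
          rw [vv_succ hl]
          exact div_le (Nat.one_le_iff_ne_zero.2 (by positivity)) hw
        have h2 := ih (x + 1) _ W h1
        have h3 : (f (mk l m0 x) w : ℝ≥0∞) ≤ W * ((vv l x : ℝ≥0∞) * φ (mk l m0 x)) := by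
          rw [← mul_assoc]
          refine hf x w (W * vv l x) (hw.trans (le_of_eq ?_))
          ring
        have h4 : (Nat.rec (motive := fun _ => ℕ) 0
                (fun w' _ => Nat.rec (motive := fun _ => ℕ) 0
                  (fun m' _ => inn s k thr l f n (Nat.succ x) (Nat.succ m') (Nat.succ w'))
                  (mk l m0 (x + 1)))
                (w / (l * (x + 1))) : ℕ) ≤
            inn s k thr l f n (x + 1) (mk l m0 (x + 1)) (w / (l * (x + 1))) := by
          cases w / (l * (x + 1)) with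
          | zero => exact Nat.zero_le _
          | succ w' =>
            cases mk l m0 (x + 1) with
            | zero => exact Nat.zero_le _
            | succ m' => exact le_rfl
        have h5 := Nat.add_le_add_left h4 (f (mk l m0 x) w)
        refine le_trans (Nat.cast_le.2 h5) ?_
        rw [tsum_eq_zero_add' ENNReal.summable, mul_add W, Nat.cast_add]
        refine add_le_add (by simpa using h3) (h2.trans (le_of_eq ?_))
        congr 1
        refine tsum_congr fun y => ?_
        rw [show x + 1 + y = x + (y + 1) by ring]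

theorem inn_le' {s k thr l : ℕ} {f : ℕ → ℕ → ℕ} {φ : ℕ → ℝ≥0∞} {r : ℝ≥0∞} (hl : 1 ≤ l) (m : ℕ)
    (hf : ∀ (x w : ℕ) (W : ℝ≥0∞), (w : ℝ≥0∞) ≤ W * r →
      (f (mk l m x) w : ℝ≥0∞) ≤ W * φ (mk l m x)) (n w : ℕ) (W : ℝ≥0∞) (hw : (w : ℝ≥0∞) ≤ W * r) :
    (inn s k thr l f n 0 m w : ℝ≥0∞) ≤ W * ∑' y, (vv l y : ℝ≥0∞) * φ (mk l m y) := by
  have h := inn_le (s := s) (k := k) (thr := thr) hl m hf n 0 w W (by rw [vv_zero]; simpa using hw)
  simpa [mk] using h

/-- the sum of the weights of a length -/
noncomputable def EE (l : ℕ) : ℝ≥0∞ := ∑' y, (vv l y : ℝ≥0∞)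

theorem sum_vv {l : ℕ} (hl : 1 ≤ l) (w : ℕ) :
    ((w * eN l / eD l : ℕ) : ℝ≥0∞) ≤ w * ∑' y, (vv l y : ℝ≥0∞) := by
  have hl' : (l : ℝ≥0) ≠ 0 := by
    have : (0 : ℝ≥0) < l := by exact_mod_cast hl
    exact this.ne'
  have hD : 1 ≤ eD l := by
    unfold eD
    have := Nat.one_le_pow 5 l hl
    omega
  have h1 : ∑ y ∈ range 6, vv l y = (eN l : ℝ≥0) / (eD l : ℝ≥0) := by
    simp only [Finset.sum_range_succ, Finset.sum_range_zero, vv, eN, eD, Nat.factorial]
    push_cast
    field_simp
    ring
  have h2 : (eN l : ℝ≥0∞) / (eD l : ℝ≥0∞) ≤ ∑' y, (vv l y : ℝ≥0∞) := by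
    refine le_trans (le_of_eq ?_) (ENNReal.sum_le_tsum (range 6))
    rw [← ENNReal.ofNNReal_finsetSum, h1, ENNReal.coe_div]
    · simp
    · exact_mod_cast Nat.one_le_iff_ne_zero.1 hD
  refine le_trans ?_ (mul_le_mul_right h2 _)
  have h3 := div_le (w := w * eN l) (d := eD l) hD (W := (w : ℝ≥0∞)) (v := (eN l : ℝ≥0∞))
    (by push_cast; exact le_rfl)
  exact h3

theorem ful_le : ∀ (K l w : ℕ), 1 ≤ l → (ful K l w : ℝ≥0∞) ≤ w * Z (ml l K) (fun _ => 1) := by
  intro K
  induction K with
  | zero =>
    intro l w _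
    have : ful 0 l w = w := rfl
    rw [this, Z_zero, mul_one]
  | succ K ih =>
    intro l w hl
    have e : ful (K + 1) l w = ful K (l + 1) (w * eN l / eD l) := rfl
    rw [e, Z_cons]
    refine (ih (l + 1) (w * eN l / eD l) (by omega)).trans ?_
    refine (mul_le_mul_left (sum_vv hl w) _).trans ?_
    rw [mul_assoc, ← ENNReal.tsum_mul_right]

theorem chain_ge (k m : ℕ) : ∀ (K l : ℕ),
    ∏ i ∈ range K, (if m.testBit (k - (l + i)) = false then EE (l + i) else 1) ≤
      Z (ml l K) (fun a => ind (∀ i : Fin K, 1 ≤ a i → m.testBit (k - (l + (i : ℕ))) = false)) := by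
  intro K
  induction K with
  | zero =>
    intro l
    rw [Z_zero, ind_true (fun i => i.elim0), Finset.prod_range_zero]
  | succ K ih =>
    intro l
    rw [Z_cons, Finset.prod_range_succ', add_zero, mul_comm]
    have e2 : ∏ i ∈ range K, (if m.testBit (k - (l + (i + 1))) = false then EE (l + (i + 1)) else 1) =
        ∏ i ∈ range K, (if m.testBit (k - (l + 1 + i)) = false then EE (l + 1 + i) else 1) :=
      Finset.prod_congr rfl fun i _ => by rw [show l + (i + 1) = l + 1 + i by ring]
    rw [e2]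
    cases hb : m.testBit (k - l) with
    | true =>
      rw [if_neg (by simp), one_mul]
      refine (ih (l + 1)).trans ?_
      refine le_trans (le_of_eq ?_) (ENNReal.le_tsum 0)
      rw [vv_zero, ENNReal.coe_one, one_mul]
      congr 1
      funext a
      congr 1
      refine propext ⟨fun h i => ?_, fun h i hi => ?_⟩
      · refine Fin.cases ?_ (fun i => ?_) i
        · intro h0
          simp at h0
        · intro hi
          rw [Fin.cons_succ] at hi
          have := h i hi
          rw [Fin.val_succ]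
          rwa [show l + 1 + (i : ℕ) = l + ((i : ℕ) + 1) by ring] at this
      · have := h i.succ (by rwa [Fin.cons_succ])
        rw [Fin.val_succ] at this
        rwa [show l + 1 + (i : ℕ) = l + ((i : ℕ) + 1) by ring]
    | false =>
      rw [if_pos rfl]
      refine (mul_le_mul_right (ih (l + 1)) _).trans ?_
      unfold EE
      rw [← ENNReal.tsum_mul_right]
      refine ENNReal.tsum_le_tsum fun x => mul_le_mul_right ?_ _
      refine Z_mono _ fun a => ind_mono fun h i => ?_
      refine Fin.cases ?_ (fun i => ?_) i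
      · intro _
        simpa using hb
      · intro hi
        rw [Fin.cons_succ] at hi
        have := h i hi
        rw [Fin.val_succ]
        rwa [show l + 1 + (i : ℕ) = l + ((i : ℕ) + 1) by ring] at this

theorem hit_late {K k l m : ℕ} (a : Fin K → ℕ) (h2 : k < l + l) (hm : m.testBit k = false)
    (h : ∀ i : Fin K, 1 ≤ a i → m.testBit (k - (l + (i : ℕ))) = false) : ¬ hit k l m a := by
  rintro ⟨c, hc, t, ht, he⟩
  by_cases h0 : ∀ i, c i = 0
  · have : ∑ i : Fin K, (l + (i : ℕ)) * c i = 0 := Finset.sum_eq_zero fun i _ => by rw [h0 i, mul_zero]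
    rw [this, add_zero] at he
    rw [he, hm] at ht
    exact Bool.false_ne_true ht
  · push Not at h0
    obtain ⟨i, hi⟩ := h0
    rw [← Finset.add_sum_erase _ _ (Finset.mem_univ i)] at he
    have hi1 : c i = 1 := by
      by_contra hne
      have h3 : (l + (i : ℕ)) * 2 ≤ (l + (i : ℕ)) * c i := Nat.mul_le_mul_left _ (by omega)
      omega
    rw [hi1, mul_one] at he
    have hr : ∑ j ∈ univ.erase i, (l + (j : ℕ)) * c j = 0 := by
      refine Finset.sum_eq_zero fun j hj => ?_
      by_contra hne
      have hcj : c j ≠ 0 := fun h => hne (by rw [h, mul_zero])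
      have h3 : (l + (j : ℕ)) * c j ≤ ∑ j ∈ univ.erase i, (l + (j : ℕ)) * c j :=
        Finset.single_le_sum (f := fun j : Fin K => (l + (j : ℕ)) * c j) (fun _ _ => Nat.zero_le _) hj
      have h4 : (l + (j : ℕ)) * 1 ≤ (l + (j : ℕ)) * c j := Nat.mul_le_mul_left _ (by omega)
      omega
    rw [hr, add_zero] at he
    have h5 := h i (by have := hc i; omega)
    rw [show k - (l + (i : ℕ)) = t by omega, ht] at h5
    exact Bool.false_ne_true h5.symm

theorem hit_zero (k l m : ℕ) (a : Fin 0 → ℕ) : hit k l m a ↔ m.testBit k = true := by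
  constructor
  · rintro ⟨c, _, t, ht, he⟩
    simp only [Finset.univ_eq_empty, Finset.sum_empty, add_zero] at he
    rwa [← he]
  · intro h
    exact ⟨fun _ => 0, fun i => i.elim0, k, h, by simp⟩

/-- the factor of the late lengths `k - t`, `t < l` -/
noncomputable def RR (k m l : ℕ) : ℝ≥0∞ :=
  ∏ t ∈ range l, (if 2 * t < k ∧ m.testBit t = false then EE (k - t) else 1)

theorem RR_mk (k m l x : ℕ) : RR k (mk l m x) l = RR k m l := by
  unfold RR
  refine Finset.prod_congr rfl fun t ht => ?_
  rw [Finset.mem_range] at ht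
  have : (mk l m x).testBit t = m.testBit t := by
    rw [Bool.eq_iff_iff, mk_bit]
    constructor
    · rintro ⟨y, _, s, hs, h⟩
      obtain rfl : y = 0 := by
        by_contra h0
        have h3 : l * 1 ≤ l * y := Nat.mul_le_mul_left _ (by omega)
        omega
      rw [mul_zero, add_zero] at h
      rwa [← h]
    · intro h
      exact ⟨0, Nat.zero_le _, t, h, by simp⟩
  rw [this]

theorem RR_late {k m l K : ℕ} (h1 : l + K = k + 1) (h2 : k < 2 * l) (h3 : 2 * l ≤ k + 2) :
    RR k m l = ∏ i ∈ range K, (if m.testBit (k - (l + i)) = false then EE (l + i) else 1) := by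
  have hK : K ≤ l := by omega
  have e1 : RR k m l = ∏ t ∈ range K, (if m.testBit t = false then EE (k - t) else 1) := by
    unfold RR
    rw [← Finset.prod_subset (Finset.range_subset_range.2 hK)]
    · refine Finset.prod_congr rfl fun t ht => ?_
      rw [Finset.mem_range] at ht
      have : 2 * t < k := by omega
      simp [this]
    · intro t ht1 ht2
      rw [Finset.mem_range] at ht1 ht2
      rw [if_neg]
      rintro ⟨h, _⟩
      omega
  rw [e1, ← Finset.prod_range_reflect]
  refine Finset.prod_congr rfl fun i hi => ?_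
  rw [Finset.mem_range] at hi
  rw [show K - 1 - i = k - (l + i) by omega, show k - (k - (l + i)) = l + i by omega]

theorem adj_le {k l m w : ℕ} {W : ℝ≥0∞} (hkl : l < k) (hw : (w : ℝ≥0∞) ≤ W * RR k m l)
    (hb : m.testBit l = false) (h2 : 2 * l < k) :
    ((w * eN (k - l) / eD (k - l) : ℕ) : ℝ≥0∞) ≤ W * RR k m (l + 1) := by
  have e : RR k m (l + 1) = RR k m l * EE (k - l) := by
    unfold RR
    rw [Finset.prod_range_succ, if_pos ⟨h2, hb⟩]
  rw [e, ← mul_assoc]
  exact (sum_vv (by omega) w).trans (mul_le_mul_left hw _)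

theorem RR_same {k l m : ℕ} (h : ¬ (2 * l < k ∧ m.testBit l = false)) :
    RR k m (l + 1) = RR k m l := by
  unfold RR
  rw [Finset.prod_range_succ, if_neg h, mul_one]

theorem lf_le (k thr : ℕ) : ∀ (K l m w : ℕ) (W : ℝ≥0∞), 1 ≤ l → l + K = k + 1 → 2 * l ≤ k + 2 →
    (w : ℝ≥0∞) ≤ W * RR k m l → (lf k thr K l m w : ℝ≥0∞) ≤
      W * Z (ml l K) (fun a => ind (¬ hit k l m a)) := by
  intro K
  induction K with
  | zero =>
    intro l m w W hl h1 h2 hw
    have hk : k = 0 := by omega
    have hl1 : l = 1 := by omega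
    have hR : RR k m l = 1 := by
      unfold RR
      refine Finset.prod_eq_one fun t _ => if_neg ?_
      rintro ⟨h, _⟩
      omega
    rw [hR, mul_one] at hw
    have e : lf k thr 0 l m w = Nat.rec (motive := fun _ => ℕ) w (fun _ _ => 0)
      (Nat.land 1 (Nat.shiftRight m k)) := rfl
    rw [e, bit_eq, Z_zero]
    cases hb : m.testBit k with
    | true => simp
    | false =>
      have : ¬ hit k l m (default : Fin 0 → ℕ) := by
        rw [hit_zero, hb]
        exact Bool.false_ne_true
      rw [ind_true this, mul_one]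
      exact hw
  | succ K ih =>
    intro l m w W hl h1 h2 hw
    have e : lf k thr (K + 1) l m w = Bool.rec (motive := fun _ => ℕ)
      (inn 1 k thr l (fun m w => Bool.rec (motive := fun _ => ℕ) (lf k thr K (l + 1) m w)
          (Nat.rec (motive := fun _ => ℕ)
            (Nat.rec (motive := fun _ => ℕ) 0 (fun w' _ => lf k thr K (l + 1) m (Nat.succ w'))
              (w * eN (k - l) / eD (k - l)))
            (fun _ _ => lf k thr K (l + 1) m w) (Nat.land 1 (Nat.shiftRight m l)))
          (Nat.ble (Nat.succ (Nat.add l l)) k)) 40 0 m w)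
      (Nat.rec (motive := fun _ => ℕ) w (fun _ _ => 0) (Nat.land 1 (Nat.shiftRight m k)))
      (Nat.ble (Nat.succ k) (Nat.add l l)) := rfl
    rw [e]
    cases hb : Nat.ble (Nat.succ k) (Nat.add l l) with
    | true =>
      have hkl : k < l + l := Nat.le_of_ble_eq_true hb
      rw [bit_eq]
      cases hm : m.testBit k with
      | true => simp
      | false =>
        refine hw.trans (mul_le_mul_right ?_ _)
        rw [RR_late h1 (by omega) h2]
        refine (chain_ge k m (K + 1) l).trans ?_
        exact Z_mono _ fun a => ind_mono fun h => hit_late a hkl hm h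
    | false =>
      have hkl : ¬ k < l + l := by
        intro h
        rw [Nat.ble_eq_true_of_le (show Nat.succ k ≤ Nat.add l l from h)] at hb
        exact Bool.false_ne_true hb.symm
      have hR : ∀ x, RR k (mk l m x) l = RR k m l := fun x => RR_mk k m l x
      refine (inn_le' (r := RR k m l)
        (φ := fun m' => Z (ml (l + 1) K) (fun a => ind (¬ hit k (l + 1) m' a))) hl m ?_ 40 w W
        hw).trans ?_
      · intro x w W hw
        have ih' := fun w' => ih (l + 1) (mk l m x) w' W (by omega) (by omega) (by omega)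
        cases hc : Nat.ble (Nat.succ (Nat.add l l)) k with
        | false =>
          refine ih' w ?_
          rw [RR_same, hR]
          · exact hw
          · rintro ⟨h, _⟩
            rw [Nat.ble_eq_true_of_le (show Nat.succ (Nat.add l l) ≤ k from by
              change l + l + 1 ≤ k
              omega)] at hc
            exact Bool.false_ne_true hc.symm
        | true =>
          have h4 : l + l + 1 ≤ k := Nat.le_of_ble_eq_true hc
          rw [bit_eq]
          cases hm : (mk l m x).testBit l with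
          | true =>
            refine ih' w ?_
            rw [RR_same, hR]
            · exact hw
            · rintro ⟨_, h⟩
              rw [hm] at h
              exact Bool.false_ne_true h.symm
          | false =>
            have h5 := adj_le (k := k) (l := l) (m := mk l m x) (w := w) (W := W) (by omega)
              (by rw [hR]; exact hw) hm (by omega)
            have h6 := ih' _ h5
            refine le_trans (Nat.cast_le.2 ?_) h6
            cases w * eN (k - l) / eD (k - l) with
            | zero => exact Nat.zero_le _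
            | succ w' => exact le_rfl
      · rw [Z_cons]
        refine mul_le_mul_right (le_of_eq ?_) _
        refine tsum_congr fun x => ?_
        congr 2
        funext a
        rw [hit_cons]

theorem lt_le (k thr : ℕ) : ∀ (K l m w : ℕ) (W : ℝ≥0∞), 1 ≤ l → (w : ℝ≥0∞) ≤ W →
    (lt k thr K l m w : ℝ≥0∞) ≤ W * Z (ml l K) (fun a => ind (hit k l m a)) := by
  intro K
  induction K with
  | zero =>
    intro l m w W _ hw
    have e : lt k thr 0 l m w = Nat.rec (motive := fun _ => ℕ) 0 (fun _ _ => w)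
      (Nat.land 1 (Nat.shiftRight m k)) := rfl
    rw [e, bit_eq, Z_zero]
    cases hb : m.testBit k with
    | false => simp
    | true =>
      have : hit k l m (default : Fin 0 → ℕ) := by
        rw [hit_zero, hb]
      rw [ind_true this, mul_one]
      exact hw
  | succ K ih =>
    intro l m w W hl hw
    have e : lt k thr (K + 1) l m w = Nat.rec (motive := fun _ => ℕ)
      (inn 0 k thr l (lt k thr K (l + 1)) 40 0 m w) (fun _ _ => ful (K + 1) l w)
      (Nat.land 1 (Nat.shiftRight m k)) := rfl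
    rw [e, bit_eq]
    cases hb : m.testBit k with
    | false =>
      refine (inn_le' (r := 1)
        (φ := fun m' => Z (ml (l + 1) K) (fun a => ind (hit k (l + 1) m' a))) hl m ?_ 40 w W
        (by rwa [mul_one])).trans ?_
      · intro x w W hw
        exact ih (l + 1) (mk l m x) w W (by omega) (by rwa [mul_one] at hw)
      · rw [Z_cons]
        refine mul_le_mul_right (le_of_eq ?_) _
        refine tsum_congr fun x => ?_
        congr 2
        funext a
        rw [hit_cons]
    | true =>
      change (ful (K + 1) l w : ℝ≥0∞) ≤ _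
      refine (ful_le (K + 1) l w hl).trans (mul_le_mul' hw ?_)
      refine Z_mono _ fun a => ?_
      rw [ind_true]
      exact ⟨fun _ => 0, fun i => Nat.zero_le _, k, hb, by simp⟩

end Pool.Agent.Lib.MP_134bf7_pr.FC
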