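import Pool.Agent.Lib.MP_134bf7_pr.FC.A

/-!
# Bounds for `p k` from the computable lower bounds
-/

namespace Pool.Agent.Lib.MP_134bf7_pr.FC

open Finset Pool.Agent.Lib.MP_134bf7_pr.RL
open scoped ENNReal NNReal

/-- the scale -/
def SC : ℕ := 1000000000000

/-- numerator of the upper bound for `exp (1 / n)` -/
def uN (n : ℕ) : ℕ :=
  4320 * n ^ 6 + 4320 * n ^ 5 + 2160 * n ^ 4 + 720 * n ^ 3 + 180 * n ^ 2 + 36 * n + 7

/-- denominator of the upper bound for `exp (1 / n)` -/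
def uD (n : ℕ) : ℕ := 4320 * n ^ 6

/-- `SC` times an upper bound for the exponential of the `k`-th harmonic number -/
def Eu (k : ℕ) : ℕ := Nat.rec SC (fun n E => Nat.succ (Nat.div (Nat.mul E (uN (Nat.succ n))) (uD (Nat.succ n)))) k

theorem Eu_zero : Eu 0 = SC := rfl

theorem Eu_succ (n : ℕ) : Eu (n + 1) = Eu n * uN (n + 1) / uD (n + 1) + 1 := rfl

theorem exp_inv_le {n : ℕ} (hn : 1 ≤ n) : Real.exp (1 / (n : ℝ)) ≤ (uN n : ℝ) / (uD n : ℝ) := by
  have hn' : (1 : ℝ) ≤ n := by exact_mod_cast hn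
  have hp : (0 : ℝ) < n := by linarith
  have h := Real.exp_bound' (x := 1 / (n : ℝ)) (by positivity) (by rw [div_le_one hp]; exact hn')
    (n := 6) (by norm_num)
  refine h.trans (le_of_eq ?_)
  simp only [Finset.sum_range_succ, Finset.sum_range_zero, uN, uD, Nat.factorial]
  push_cast
  field_simp
  ring

theorem HH_zero : HH 0 = 0 := by simp [HH]

theorem HH_succ (k : ℕ) : HH (k + 1) = HH k + 1 / ((k + 1 : ℕ) : ℝ) := by
  unfold HH
  rw [Fin.sum_univ_castSucc]
  simp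

theorem exp_HH_le (k : ℕ) : Real.exp (HH k) * SC ≤ Eu k := by
  induction k with
  | zero => rw [HH_zero, Real.exp_zero, one_mul, Eu_zero]
  | succ k ih =>
    have hD : 0 < uD (k + 1) := by
      unfold uD
      positivity
    have hD' : (0 : ℝ) < uD (k + 1) := by exact_mod_cast hD
    rw [HH_succ, Real.exp_add, Eu_succ]
    have h1 := exp_inv_le (n := k + 1) (by omega)
    have h2 : Real.exp (HH k) * Real.exp (1 / ((k + 1 : ℕ) : ℝ)) * SC ≤
        (Eu k : ℝ) * ((uN (k + 1) : ℝ) / (uD (k + 1) : ℝ)) := by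
      calc Real.exp (HH k) * Real.exp (1 / ((k + 1 : ℕ) : ℝ)) * SC
          = (Real.exp (HH k) * SC) * Real.exp (1 / ((k + 1 : ℕ) : ℝ)) := by ring
        _ ≤ _ := mul_le_mul ih h1 (Real.exp_pos _).le (Nat.cast_nonneg _)
    refine h2.trans ?_
    rw [← mul_div_assoc, div_le_iff₀ hD']
    have h3 : Eu k * uN (k + 1) ≤ (Eu k * uN (k + 1) / uD (k + 1) + 1) * uD (k + 1) := by
      have := Nat.div_add_mod (Eu k * uN (k + 1)) (uD (k + 1))
      have h4 := Nat.mod_lt (Eu k * uN (k + 1)) hD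
      nlinarith
    exact_mod_cast h3

theorem Eu_pos (k : ℕ) : (0 : ℝ) < Eu k := by
  refine lt_of_lt_of_le ?_ (exp_HH_le k)
  have : (0 : ℝ) < SC := by norm_num [SC]
  exact mul_pos (Real.exp_pos _) this

theorem ml_one (k : ℕ) : ml 1 k = mu k := by
  funext i
  unfold ml mu
  rw [Nat.cast_one, add_comm]

theorem one_bit (t : ℕ) : (1 : ℕ).testBit t = true ↔ t = 0 := by
  constructor
  · intro h
    by_contra h0
    obtain ⟨s, rfl⟩ := Nat.exists_eq_succ_of_ne_zero h0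
    simp [Nat.testBit_succ] at h
  · rintro rfl
    rfl

theorem hit_one {k : ℕ} (a : Fin k → ℕ) : hit k 1 1 a ↔ Good k a := by
  unfold hit Good len
  constructor
  · rintro ⟨c, hc, t, ht, he⟩
    rw [one_bit] at ht
    subst ht
    refine ⟨c, hc, ?_⟩
    refine Eq.trans ?_ he
    rw [zero_add]
    exact Finset.sum_congr rfl fun i _ => by rw [add_comm]
  · rintro ⟨c, hc, he⟩
    refine ⟨c, hc, 0, (one_bit 0).2 rfl, ?_⟩
    refine Eq.trans ?_ he
    rw [zero_add]
    exact Finset.sum_congr rfl fun i _ => by rw [add_comm]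

/-- from a lower bound of the weight to a lower bound of the expectation -/
theorem Ex_ge {k q : ℕ} {F : (Fin k → ℕ) → ℝ≥0∞} (h : (q : ℝ≥0∞) ≤ SC * Z (mu k) F) :
    ENNReal.ofReal ((q : ℝ) / Eu k) ≤ Ex k F := by
  have hS : (0 : ℝ) < SC := by norm_num [SC]
  have h1 : (q : ℝ) / Eu k ≤ Real.exp (-(HH k)) * ((q : ℝ) / SC) := by
    rw [Real.exp_neg, ← div_eq_inv_mul, div_div]
    refine div_le_div_of_nonneg_left (Nat.cast_nonneg _) (mul_pos hS (Real.exp_pos _)) ?_
    rw [mul_comm]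
    exact exp_HH_le k
  refine (ENNReal.ofReal_le_ofReal h1).trans ?_
  unfold Ex
  rw [ENNReal.ofReal_mul (Real.exp_pos _).le]
  refine mul_le_mul_right ?_ _
  rw [ENNReal.ofReal_div_of_pos hS, ENNReal.ofReal_natCast, ENNReal.ofReal_natCast]
  rw [ENNReal.div_le_iff_le_mul (Or.inl (by exact_mod_cast (by norm_num [SC] : SC ≠ 0)))
    (Or.inl (ENNReal.natCast_ne_top SC)), mul_comm]
  exact h

theorem p_add_le {k q : ℕ}
    (h : (q : ℝ≥0∞) ≤ SC * Z (mu k) (fun a => ind (¬ Good k a))) : p k + (q : ℝ) / Eu k ≤ 1 := by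
  have h1 := Ex_ge h
  have h2 : PG k k + Ex k (fun a => ind (¬ Good k a)) = 1 := by
    unfold PG
    rw [← Ex_add, ← Ex_one k]
    congr 1
    funext a
    by_cases hG : Good k a
    · rw [ind_true hG, ind_false (not_not.2 hG), add_zero]
    · rw [ind_false hG, ind_true hG, zero_add]
  have h3 : ENNReal.ofReal (p k + (q : ℝ) / Eu k) ≤ 1 := by
    rw [ENNReal.ofReal_add (p_nonneg k) (div_nonneg (Nat.cast_nonneg _) (Eu_pos k).le), ← PG_self,
      ← h2]
    exact add_le_add le_rfl h1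
  exact ENNReal.ofReal_le_one.1 h3

theorem le_p {k q : ℕ}
    (h : (q : ℝ≥0∞) ≤ SC * Z (mu k) (fun a => ind (Good k a))) : (q : ℝ) / Eu k ≤ p k := by
  have h1 := Ex_ge h
  have h2 : Ex k (fun a => ind (Good k a)) = ENNReal.ofReal (p k) := by
    rw [← PG_self]
    rfl
  rw [h2] at h1
  exact (ENNReal.ofReal_le_ofReal_iff (p_nonneg k)).1 h1

theorem lf_p (k thr : ℕ) : p k + ((lf k thr k 1 1 SC : ℕ) : ℝ) / Eu k ≤ 1 := by
  have hR : (SC : ℝ≥0∞) ≤ (SC : ℝ≥0∞) * RR k 1 1 := by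
    unfold RR
    rw [Finset.prod_range_one, if_neg (by simp), mul_one]
  refine p_add_le ((lf_le k thr k 1 1 SC SC le_rfl (by omega) (by omega) hR).trans (le_of_eq ?_))
  rw [ml_one]
  congr 2
  funext a
  rw [hit_one]

theorem lt_p (k thr : ℕ) : ((lt k thr k 1 1 SC : ℕ) : ℝ) / Eu k ≤ p k := by
  refine le_p ((lt_le k thr k 1 1 SC SC le_rfl le_rfl).trans (le_of_eq ?_))
  rw [ml_one]
  congr 2
  funext a
  rw [hit_one]

/-- certificate of an upper bound -/
def cU (k thr u : ℕ) : Bool :=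
  Nat.ble (Nat.mul (Nat.sub 10000000 u) (Eu k)) (Nat.mul 10000000 (lf k thr k 1 1 SC))

/-- certificate of a lower bound -/
def cL (k thr u : ℕ) : Bool := Nat.ble (Nat.mul u (Eu k)) (Nat.mul 10000000 (lt k thr k 1 1 SC))

theorem upper {k thr u : ℕ} (h : cU k thr u = true) : p k ≤ (u : ℝ) / 10000000 := by
  have h0 := lf_p k thr
  have hE := Eu_pos k
  have h1 : (10000000 - u) * Eu k ≤ 10000000 * lf k thr k 1 1 SC := Nat.le_of_ble_eq_true h
  have h2 : ((10000000 : ℝ) - u) * Eu k ≤ 10000000 * (lf k thr k 1 1 SC : ℕ) := by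
    have h3 : ((10000000 : ℝ) - u) ≤ ((10000000 - u : ℕ) : ℝ) := by
      have : 10000000 ≤ (10000000 - u) + u := by omega
      have h4 : ((10000000 : ℕ) : ℝ) ≤ (((10000000 - u) + u : ℕ) : ℝ) := by exact_mod_cast this
      push_cast at h4
      linarith
    refine (mul_le_mul_of_nonneg_right h3 hE.le).trans ?_
    exact_mod_cast h1
  have h5 : ((10000000 : ℝ) - u) / 10000000 ≤ ((lf k thr k 1 1 SC : ℕ) : ℝ) / Eu k := by
    rw [div_le_div_iff₀ (by norm_num) hE]
    linarith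
  have h6 : ((10000000 : ℝ) - u) / 10000000 = 1 - (u : ℝ) / 10000000 := by
    rw [sub_div, div_self (by norm_num)]
  rw [h6] at h5
  linarith

theorem lower {k thr u : ℕ} (h : cL k thr u = true) : (u : ℝ) / 10000000 ≤ p k := by
  refine le_trans ?_ (lt_p k thr)
  have hE := Eu_pos k
  have h1 : u * Eu k ≤ 10000000 * lt k thr k 1 1 SC := Nat.le_of_ble_eq_true h
  have h2 : (u : ℝ) * Eu k ≤ 10000000 * (lt k thr k 1 1 SC : ℕ) := by exact_mod_cast h1
  rw [div_le_div_iff₀ (by norm_num) hE]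
  linarith

end Pool.Agent.Lib.MP_134bf7_pr.FC
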