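import Pool.Agent.Lib.MP_134bf7_pr.Cesaro
import Pool.Agent.Lib.MP_134bf7_pr.RL.LiE

/-!
# The averages bound the later values
-/

namespace Pool.Agent.Lib.MP_134bf7_pr.FC

open Finset Filter Topology Pool.Agent.Lib.MP_134bf7_pr.Cesaro Pool.Agent.Lib.MP_134bf7_pr.RL

/-- the number of sets of size `k` mapped onto themselves by `σ` -/
def XX {n : ℕ} (σ : Equiv.Perm (Fin n)) (k : ℕ) : ℕ :=
  ((Finset.univ : Finset (Finset (Fin n))).filter fun S => S.card = k ∧ S.image σ = S).card

/-- the mean of `ψ (XX σ k)` -/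
noncomputable def mean (ψ : ℝ → ℝ) (n k : ℕ) : ℝ :=
  (∑ σ : Equiv.Perm (Fin n), ψ (XX σ k)) / n.factorial

theorem mean_eq (ψ : ℝ → ℝ) (n k : ℕ) : mean ψ n k = A ψ n k := rfl

theorem mean_const_sub (ψ : ℝ → ℝ) (c : ℝ) (n k : ℕ) :
    mean (fun x => c - ψ x) n k = c - mean ψ n k := by
  have h : ((n.factorial : ℝ)) ≠ 0 := by positivity
  rw [mean, mean, Finset.sum_sub_distrib, Finset.sum_const, Finset.card_univ, Fintype.card_perm,
    Fintype.card_fin, nsmul_eq_mul, sub_div, mul_div_assoc, mul_comm, div_mul_cancel₀]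
  exact h

theorem prob_eq (n k : ℕ) : prob n k = 1 - mean (fun x => max (1 - x) 0) n k := by
  classical
  have h : ((n.factorial : ℝ)) ≠ 0 := by positivity
  rw [prob, ← mean_const_sub, mean, Fintype.card_subtype, Finset.card_filter]
  push_cast
  congr 1
  refine Finset.sum_congr rfl fun σ _ => ?_
  by_cases hS : ∃ S : Finset (Fin n), S.card = k ∧ S.image σ = S
  · rw [if_pos hS]
    obtain ⟨S, hS⟩ := hS
    have : 1 ≤ XX σ k := Finset.card_pos.2 ⟨S, by simp [hS]⟩
    have h1 : (1 : ℝ) ≤ (XX σ k : ℝ) := by exact_mod_cast this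
    rw [max_eq_right (by linarith)]; ring
  · rw [if_neg hS]
    have : XX σ k = 0 := by
      rw [XX, Finset.card_eq_zero, Finset.filter_eq_empty_iff]
      intro S _ h'
      exact hS ⟨S, h'⟩
    rw [this]; simp

/-- each value is at most the average of the earlier ones -/
theorem mul_p_le (k : ℕ) (hk : 1 ≤ k) : (k : ℝ) * p k ≤ ∑ j ∈ Finset.range k, p j := by
  have hψ : ConvexOn ℝ (Set.Ici 0) (fun x : ℝ => max (1 - x) 0) := by
    refine ConvexOn.sup ?_ (convexOn_const 0 (convex_Ici 0))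
    exact (convexOn_const 1 (convex_Ici 0)).sub (concaveOn_id (convex_Ici 0))
  have hk' : (0 : ℝ) < k := by exact_mod_cast hk
  have hfin : ∀ n, k ≤ n → (k : ℝ) * prob n k ≤
      ∑ i ∈ Finset.range k, prob (n - (i + 1)) (k - (i + 1)) := by
    intro n hkn
    have hconc : ConcaveOn ℝ (Set.Ici 0) (fun x : ℝ => max (1 - 0 : ℝ) 0 - max (1 - x) 0) :=
      (concaveOn_const (max (1 - 0 : ℝ) 0) (convex_Ici 0)).sub hψ
    have h := concave_ineq (fun x : ℝ => max (1 - 0 : ℝ) 0 - max (1 - x) 0) (by simp) hconc hkn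
    have e1 : ∀ a b, A (fun x : ℝ => max (1 - 0 : ℝ) 0 - max (1 - x) 0) a b = prob a b := by
      intro a b
      rw [← mean_eq, mean_const_sub (fun x : ℝ => max (1 - x) 0), prob_eq]
      norm_num
    rw [e1] at h
    simp_rw [e1] at h
    exact h
  have hlim : (k : ℝ) * p k ≤ ∑ i ∈ Finset.range k, p (k - (i + 1)) := by
    refine le_of_tendsto_of_tendsto ((prob_tendsto k).const_mul (k : ℝ))
      (tendsto_finsetSum _ fun i _ =>
        (prob_tendsto (k - (i + 1))).comp (tendsto_sub_atTop_nat (i + 1))) ?_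
    filter_upwards [eventually_ge_atTop k] with n hn
    exact hfin n hn
  refine hlim.trans (le_of_eq ?_)
  rw [← Finset.sum_range_reflect]
  refine Finset.sum_congr rfl fun i hi => ?_
  rw [Finset.mem_range] at hi
  congr 1; omega

theorem p_zero_le : p 0 ≤ 1 := by
  have h := PG_le_one 0 0
  rw [PG_self] at h
  exact ENNReal.ofReal_le_one.1 h

/-- a bound of an average is a bound of all later values -/
theorem later {K : ℕ} (hK : 1 ≤ K) {c : ℝ} (h : ∑ i ∈ range K, p i ≤ K * c) :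
    ∀ k, K ≤ k → p k ≤ c := by
  have key : ∀ d : ℕ, ∑ i ∈ range (K + d), p i ≤ ((K + d : ℕ) : ℝ) * c ∧ p (K + d) ≤ c := by
    intro d
    have step : ∀ k : ℕ, 1 ≤ k → ∑ i ∈ range k, p i ≤ (k : ℝ) * c → p k ≤ c := by
      intro k hk hs
      have h1 := (mul_p_le k hk).trans hs
      have hk' : (0 : ℝ) < k := by exact_mod_cast hk
      exact le_of_mul_le_mul_left h1 hk'
    induction d with
    | zero => exact ⟨by simpa using h, step K hK h⟩
    | succ d ih =>
      obtain ⟨h1, h2⟩ := ih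
      have h3 : ∑ i ∈ range (K + (d + 1)), p i ≤ ((K + (d + 1) : ℕ) : ℝ) * c := by
        rw [← add_assoc, Finset.sum_range_succ]
        push_cast at h1 ⊢
        linarith
      exact ⟨h3, step _ (by omega) h3⟩
  intro k hk
  obtain ⟨d, rfl⟩ := Nat.exists_eq_add_of_le hk
  exact (key d).2

end Pool.Agent.Lib.MP_134bf7_pr.FC
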