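import Mathlib

/-!
# Certified lower bounds for Poisson sums: the computable part

`m` is a bit mask of achievable total lengths, `w` a scaled weight (rounded down), `l` the next cycle
length, `K` the number of cycle lengths left.  The recursors are used directly (and the arguments are
evaluated by `Nat.rec`) for the sake of the kernel.
-/

namespace Pool.Agent.Lib.MP_134bf7_pr.FC

/-- The loop over the number `x` of cycles of length `l`. It stops when the weight is below `thr`, and
for `s = 1` also when bit `k` of `m` is set. -/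
def inn (s k thr l : ℕ) (f : ℕ → ℕ → ℕ) (n : ℕ) : ℕ → ℕ → ℕ → ℕ :=
  Nat.rec (fun _ _ _ => 0)
    (fun _ ih x m w => Bool.rec (motive := fun _ => ℕ) 0
      (Nat.rec (motive := fun _ => ℕ)
        (Nat.add (f m w)
          (Nat.rec (motive := fun _ => ℕ) 0
            (fun w' _ => Nat.rec (motive := fun _ => ℕ) 0
              (fun m' _ => ih (Nat.succ x) (Nat.succ m') (Nat.succ w'))
              (Nat.lor m (Nat.shiftLeft m l)))
            (Nat.div w (Nat.mul l (Nat.succ x)))))
        (fun _ _ => 0) (Nat.land s (Nat.shiftRight m k)))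
      (Nat.ble thr w)) n

/-- numerator of the lower bound for `exp (1 / l)` -/
def eN (l : ℕ) : ℕ := 120 * l ^ 5 + 120 * l ^ 4 + 60 * l ^ 3 + 20 * l ^ 2 + 5 * l + 1

/-- denominator of the lower bound for `exp (1 / l)` -/
def eD (l : ℕ) : ℕ := 120 * l ^ 5

/-- all configurations of the remaining lengths -/
def ful (K : ℕ) : ℕ → ℕ → ℕ :=
  Nat.rec (fun _ w => w)
    (fun _ ih l w => ih (Nat.succ l) (Nat.div (Nat.mul w (eN l)) (eD l))) K

/-- lower bound for the weight of the configurations without a set of total length `k`; the length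
`k - l > k / 2` is taken into account together with the length `l < k / 2` -/
def lf (k thr : ℕ) (K : ℕ) : ℕ → ℕ → ℕ → ℕ :=
  Nat.rec (fun _ m w => Nat.rec (motive := fun _ => ℕ) w (fun _ _ => 0)
      (Nat.land 1 (Nat.shiftRight m k)))
    (fun _ ih l m w => Bool.rec (motive := fun _ => ℕ)
      (inn 1 k thr l (fun m w => Bool.rec (motive := fun _ => ℕ) (ih (Nat.succ l) m w)
          (Nat.rec (motive := fun _ => ℕ)
            (Nat.rec (motive := fun _ => ℕ) 0 (fun w' _ => ih (Nat.succ l) m (Nat.succ w'))
              (Nat.div (Nat.mul w (eN (Nat.sub k l))) (eD (Nat.sub k l))))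
            (fun _ _ => ih (Nat.succ l) m w) (Nat.land 1 (Nat.shiftRight m l)))
          (Nat.ble (Nat.succ (Nat.add l l)) k)) 40 0 m w)
      (Nat.rec (motive := fun _ => ℕ) w (fun _ _ => 0) (Nat.land 1 (Nat.shiftRight m k)))
      (Nat.ble (Nat.succ k) (Nat.add l l))) K

/-- lower bound for the weight of the configurations with a set of total length `k` -/
def lt (k thr : ℕ) (K : ℕ) : ℕ → ℕ → ℕ → ℕ :=
  Nat.rec (fun _ m w => Nat.rec (motive := fun _ => ℕ) 0 (fun _ _ => w)
      (Nat.land 1 (Nat.shiftRight m k)))
    (fun K' ih l m w => Nat.rec (motive := fun _ => ℕ)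
      (inn 0 k thr l (ih (Nat.succ l)) 40 0 m w) (fun _ _ => ful (Nat.succ K') l w)
      (Nat.land 1 (Nat.shiftRight m k))) K

end Pool.Agent.Lib.MP_134bf7_pr.FC
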