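import Pool.Agent.Lib.MP_134bf7_pr.FC.B

/-!
# Upper bounds for `p k`, `25 ≤ k ≤ 27`
-/

namespace Pool.Agent.Lib.MP_134bf7_pr.FC

open Pool.Agent.Lib.MP_134bf7_pr.RL

theorem u25 : p 25 ≤ 3068271 / 10000000 := by
  have h := upper (k := 25) (thr := 50000000) (u := 3068271) (by decide +kernel)
  exact_mod_cast h

theorem u26 : p 26 ≤ 3050522 / 10000000 := by
  have h := upper (k := 26) (thr := 60000000) (u := 3050522) (by decide +kernel)
  exact_mod_cast h

theorem u27 : p 27 ≤ 3027579 / 10000000 := by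
  have h := upper (k := 27) (thr := 60000000) (u := 3027579) (by decide +kernel)
  exact_mod_cast h

end Pool.Agent.Lib.MP_134bf7_pr.FC
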