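import Pool.Agent.Lib.MP_134bf7_pr.FC.B

/-!
# Upper bounds for `p k`, `28 ≤ k ≤ 29`
-/

namespace Pool.Agent.Lib.MP_134bf7_pr.FC

open Pool.Agent.Lib.MP_134bf7_pr.RL

theorem u28 : p 28 ≤ 3011940 / 10000000 := by
  have h := upper (k := 28) (thr := 60000000) (u := 3011940) (by decide +kernel)
  exact_mod_cast h

theorem u29 : p 29 ≤ 2992807 / 10000000 := by
  have h := upper (k := 29) (thr := 60000000) (u := 2992807) (by decide +kernel)
  exact_mod_cast h

end Pool.Agent.Lib.MP_134bf7_pr.FC
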