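import Pool.Agent.Lib.MP_134bf7_pr.FC.B

/-!
# Upper bounds for `p k`, `30 ≤ k ≤ 31`
-/

namespace Pool.Agent.Lib.MP_134bf7_pr.FC

open Pool.Agent.Lib.MP_134bf7_pr.RL

theorem u30 : p 30 ≤ 2995262 / 10000000 := by
  have h := upper (k := 30) (thr := 80000000) (u := 2995262) (by decide +kernel)
  exact_mod_cast h

theorem u31 : p 31 ≤ 2973154 / 10000000 := by
  have h := upper (k := 31) (thr := 70000000) (u := 2973154) (by decide +kernel)
  exact_mod_cast h

end Pool.Agent.Lib.MP_134bf7_pr.FC
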