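import Pool.Agent.Lib.MP_134bf7_pr.FC.B

/-!
# Upper bounds for `p k`, `32 ≤ k ≤ 32`
-/

namespace Pool.Agent.Lib.MP_134bf7_pr.FC

open Pool.Agent.Lib.MP_134bf7_pr.RL

theorem u32 : p 32 ≤ 2977637 / 10000000 := by
  have h := upper (k := 32) (thr := 80000000) (u := 2977637) (by decide +kernel)
  exact_mod_cast h

end Pool.Agent.Lib.MP_134bf7_pr.FC
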