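import Pool.Agent.Lib.MP_134bf7_pr.FC.B

/-!
# Lower bounds for `p k`, `k ≤ 10`
-/

namespace Pool.Agent.Lib.MP_134bf7_pr.FC

open Pool.Agent.Lib.MP_134bf7_pr.RL

theorem l1 : 6321192 / 10000000 ≤ p 1 := by
  have h := lower (k := 1) (thr := 1000000) (u := 6321192) (by decide +kernel)
  exact_mod_cast h

theorem l2 : 5537340 / 10000000 ≤ p 2 := by
  have h := lower (k := 2) (thr := 1000000) (u := 5537340) (by decide +kernel)
  exact_mod_cast h

theorem l3 : 4965790 / 10000000 ≤ p 3 := by
  have h := lower (k := 3) (thr := 1000000) (u := 4965790) (by decide +kernel)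
  exact_mod_cast h

theorem l4 : 4695541 / 10000000 ≤ p 4 := by
  have h := lower (k := 4) (thr := 1000000) (u := 4695541) (by decide +kernel)
  exact_mod_cast h

theorem l5 : 4414516 / 10000000 ≤ p 5 := by
  have h := lower (k := 5) (thr := 1000000) (u := 4414516) (by decide +kernel)
  exact_mod_cast h

theorem l6 : 4250521 / 10000000 ≤ p 6 := by
  have h := lower (k := 6) (thr := 1000000) (u := 4250521) (by decide +kernel)
  exact_mod_cast h

theorem l7 : 4084661 / 10000000 ≤ p 7 := by
  have h := lower (k := 7) (thr := 1000000) (u := 4084661) (by decide +kernel)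
  exact_mod_cast h

theorem l8 : 3972590 / 10000000 ≤ p 8 := by
  have h := lower (k := 8) (thr := 1000000) (u := 3972590) (by decide +kernel)
  exact_mod_cast h

theorem l9 : 3851300 / 10000000 ≤ p 9 := by
  have h := lower (k := 9) (thr := 1000000) (u := 3851300) (by decide +kernel)
  exact_mod_cast h

theorem l10 : 3768270 / 10000000 ≤ p 10 := by
  have h := lower (k := 10) (thr := 1000000) (u := 3768270) (by decide +kernel)
  exact_mod_cast h

end Pool.Agent.Lib.MP_134bf7_pr.FC
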