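import Pool.Agent.Lib.MP_134bf7_pr.FC.Va
import Pool.Agent.Lib.MP_134bf7_pr.FC.Vb
import Pool.Agent.Lib.MP_134bf7_pr.FC.Vc
import Pool.Agent.Lib.MP_134bf7_pr.FC.Vd
import Pool.Agent.Lib.MP_134bf7_pr.FC.Ve
import Pool.Agent.Lib.MP_134bf7_pr.FC.Vf
import Pool.Agent.Lib.MP_134bf7_pr.FC.Vg
import Pool.Agent.Lib.MP_134bf7_pr.FC.Vh
import Pool.Agent.Lib.MP_134bf7_pr.FC.Vi
import Pool.Agent.Lib.MP_134bf7_pr.FC.C

/-!
# The first values are larger than all later ones
-/

namespace Pool.Agent.Lib.MP_134bf7_pr.FC

open Finset Pool.Agent.Lib.MP_134bf7_pr.RL

theorem f1 (k : ℕ) (h : 1 < k) : p k < p 1 := by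
  have hl := l1
  rcases Nat.lt_or_ge k 5 with h1 | h1
  · interval_cases k
    · have := u2; norm_num at this hl ⊢; linarith
    · have := u3; norm_num at this hl ⊢; linarith
    · have := u4; norm_num at this hl ⊢; linarith
  · have h2 : ∑ i ∈ range 5, p i ≤ ((5 : ℕ) : ℝ) * (6321191 / 10000000) := by
      simp only [Finset.sum_range_succ, Finset.sum_range_zero]
      push_cast
      linarith [p_zero_le, u1, u2, u3, u4]
    have h3 := later (by norm_num) h2 k h1
    linarith

theorem f2 (k : ℕ) (h : 2 < k) : p k < p 2 := by
  have hl := l2
  rcases Nat.lt_or_ge k 8 with h1 | h1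
  · interval_cases k
    · have := u3; norm_num at this hl ⊢; linarith
    · have := u4; norm_num at this hl ⊢; linarith
    · have := u5; norm_num at this hl ⊢; linarith
    · have := u6; norm_num at this hl ⊢; linarith
    · have := u7; norm_num at this hl ⊢; linarith
  · have h2 : ∑ i ∈ range 8, p i ≤ ((8 : ℕ) : ℝ) * (5537339 / 10000000) := by
      simp only [Finset.sum_range_succ, Finset.sum_range_zero]
      push_cast
      linarith [p_zero_le, u1, u2, u3, u4, u5, u6, u7]
    have h3 := later (by norm_num) h2 k h1
    linarith

theorem f3 (k : ℕ) (h : 3 < k) : p k < p 3 := by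
  have hl := l3
  rcases Nat.lt_or_ge k 12 with h1 | h1
  · interval_cases k
    · have := u4; norm_num at this hl ⊢; linarith
    · have := u5; norm_num at this hl ⊢; linarith
    · have := u6; norm_num at this hl ⊢; linarith
    · have := u7; norm_num at this hl ⊢; linarith
    · have := u8; norm_num at this hl ⊢; linarith
    · have := u9; norm_num at this hl ⊢; linarith
    · have := u10; norm_num at this hl ⊢; linarith
    · have := u11; norm_num at this hl ⊢; linarith
  · have h2 : ∑ i ∈ range 12, p i ≤ ((12 : ℕ) : ℝ) * (4965789 / 10000000) := by
      simp only [Finset.sum_range_succ, Finset.sum_range_zero]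
      push_cast
      linarith [p_zero_le, u1, u2, u3, u4, u5, u6, u7, u8, u9, u10, u11]
    have h3 := later (by norm_num) h2 k h1
    linarith

theorem f4 (k : ℕ) (h : 4 < k) : p k < p 4 := by
  have hl := l4
  rcases Nat.lt_or_ge k 15 with h1 | h1
  · interval_cases k
    · have := u5; norm_num at this hl ⊢; linarith
    · have := u6; norm_num at this hl ⊢; linarith
    · have := u7; norm_num at this hl ⊢; linarith
    · have := u8; norm_num at this hl ⊢; linarith
    · have := u9; norm_num at this hl ⊢; linarith
    · have := u10; norm_num at this hl ⊢; linarith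
    · have := u11; norm_num at this hl ⊢; linarith
    · have := u12; norm_num at this hl ⊢; linarith
    · have := u13; norm_num at this hl ⊢; linarith
    · have := u14; norm_num at this hl ⊢; linarith
  · have h2 : ∑ i ∈ range 15, p i ≤ ((15 : ℕ) : ℝ) * (4695540 / 10000000) := by
      simp only [Finset.sum_range_succ, Finset.sum_range_zero]
      push_cast
      linarith [p_zero_le, u1, u2, u3, u4, u5, u6, u7, u8, u9, u10, u11, u12, u13, u14]
    have h3 := later (by norm_num) h2 k h1
    linarith

theorem f5 (k : ℕ) (h : 5 < k) : p k < p 5 := by
  have hl := l5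
  rcases Nat.lt_or_ge k 19 with h1 | h1
  · interval_cases k
    · have := u6; norm_num at this hl ⊢; linarith
    · have := u7; norm_num at this hl ⊢; linarith
    · have := u8; norm_num at this hl ⊢; linarith
    · have := u9; norm_num at this hl ⊢; linarith
    · have := u10; norm_num at this hl ⊢; linarith
    · have := u11; norm_num at this hl ⊢; linarith
    · have := u12; norm_num at this hl ⊢; linarith
    · have := u13; norm_num at this hl ⊢; linarith
    · have := u14; norm_num at this hl ⊢; linarith
    · have := u15; norm_num at this hl ⊢; linarith
    · have := u16; norm_num at this hl ⊢; linarith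
    · have := u17; norm_num at this hl ⊢; linarith
    · have := u18; norm_num at this hl ⊢; linarith
  · have h2 : ∑ i ∈ range 19, p i ≤ ((19 : ℕ) : ℝ) * (4414515 / 10000000) := by
      simp only [Finset.sum_range_succ, Finset.sum_range_zero]
      push_cast
      linarith [p_zero_le, u1, u2, u3, u4, u5, u6, u7, u8, u9, u10, u11, u12, u13, u14, u15, u16, u17, u18]
    have h3 := later (by norm_num) h2 k h1
    linarith

theorem f6 (k : ℕ) (h : 6 < k) : p k < p 6 := by
  have hl := l6
  rcases Nat.lt_or_ge k 22 with h1 | h1
  · interval_cases k
    · have := u7; norm_num at this hl ⊢; linarith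
    · have := u8; norm_num at this hl ⊢; linarith
    · have := u9; norm_num at this hl ⊢; linarith
    · have := u10; norm_num at this hl ⊢; linarith
    · have := u11; norm_num at this hl ⊢; linarith
    · have := u12; norm_num at this hl ⊢; linarith
    · have := u13; norm_num at this hl ⊢; linarith
    · have := u14; norm_num at this hl ⊢; linarith
    · have := u15; norm_num at this hl ⊢; linarith
    · have := u16; norm_num at this hl ⊢; linarith
    · have := u17; norm_num at this hl ⊢; linarith
    · have := u18; norm_num at this hl ⊢; linarith
    · have := u19; norm_num at this hl ⊢; linarith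
    · have := u20; norm_num at this hl ⊢; linarith
    · have := u21; norm_num at this hl ⊢; linarith
  · have h2 : ∑ i ∈ range 22, p i ≤ ((22 : ℕ) : ℝ) * (4250520 / 10000000) := by
      simp only [Finset.sum_range_succ, Finset.sum_range_zero]
      push_cast
      linarith [p_zero_le, u1, u2, u3, u4, u5, u6, u7, u8, u9, u10, u11, u12, u13, u14, u15, u16, u17, u18, u19, u20, u21]
    have h3 := later (by norm_num) h2 k h1
    linarith

theorem f7 (k : ℕ) (h : 7 < k) : p k < p 7 := by
  have hl := l7
  rcases Nat.lt_or_ge k 26 with h1 | h1
  · interval_cases k
    · have := u8; norm_num at this hl ⊢; linarith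
    · have := u9; norm_num at this hl ⊢; linarith
    · have := u10; norm_num at this hl ⊢; linarith
    · have := u11; norm_num at this hl ⊢; linarith
    · have := u12; norm_num at this hl ⊢; linarith
    · have := u13; norm_num at this hl ⊢; linarith
    · have := u14; norm_num at this hl ⊢; linarith
    · have := u15; norm_num at this hl ⊢; linarith
    · have := u16; norm_num at this hl ⊢; linarith
    · have := u17; norm_num at this hl ⊢; linarith
    · have := u18; norm_num at this hl ⊢; linarith
    · have := u19; norm_num at this hl ⊢; linarith
    · have := u20; norm_num at this hl ⊢; linarith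
    · have := u21; norm_num at this hl ⊢; linarith
    · have := u22; norm_num at this hl ⊢; linarith
    · have := u23; norm_num at this hl ⊢; linarith
    · have := u24; norm_num at this hl ⊢; linarith
    · have := u25; norm_num at this hl ⊢; linarith
  · have h2 : ∑ i ∈ range 26, p i ≤ ((26 : ℕ) : ℝ) * (4084660 / 10000000) := by
      simp only [Finset.sum_range_succ, Finset.sum_range_zero]
      push_cast
      linarith [p_zero_le, u1, u2, u3, u4, u5, u6, u7, u8, u9, u10, u11, u12, u13, u14, u15, u16, u17, u18, u19, u20, u21, u22, u23, u24, u25]
    have h3 := later (by norm_num) h2 k h1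
    linarith

theorem f8 (k : ℕ) (h : 8 < k) : p k < p 8 := by
  have hl := l8
  rcases Nat.lt_or_ge k 29 with h1 | h1
  · interval_cases k
    · have := u9; norm_num at this hl ⊢; linarith
    · have := u10; norm_num at this hl ⊢; linarith
    · have := u11; norm_num at this hl ⊢; linarith
    · have := u12; norm_num at this hl ⊢; linarith
    · have := u13; norm_num at this hl ⊢; linarith
    · have := u14; norm_num at this hl ⊢; linarith
    · have := u15; norm_num at this hl ⊢; linarith
    · have := u16; norm_num at this hl ⊢; linarith
    · have := u17; norm_num at this hl ⊢; linarith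
    · have := u18; norm_num at this hl ⊢; linarith
    · have := u19; norm_num at this hl ⊢; linarith
    · have := u20; norm_num at this hl ⊢; linarith
    · have := u21; norm_num at this hl ⊢; linarith
    · have := u22; norm_num at this hl ⊢; linarith
    · have := u23; norm_num at this hl ⊢; linarith
    · have := u24; norm_num at this hl ⊢; linarith
    · have := u25; norm_num at this hl ⊢; linarith
    · have := u26; norm_num at this hl ⊢; linarith
    · have := u27; norm_num at this hl ⊢; linarith
    · have := u28; norm_num at this hl ⊢; linarith
  · have h2 : ∑ i ∈ range 29, p i ≤ ((29 : ℕ) : ℝ) * (3972589 / 10000000) := by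
      simp only [Finset.sum_range_succ, Finset.sum_range_zero]
      push_cast
      linarith [p_zero_le, u1, u2, u3, u4, u5, u6, u7, u8, u9, u10, u11, u12, u13, u14, u15, u16, u17, u18, u19, u20, u21, u22, u23, u24, u25, u26, u27, u28]
    have h3 := later (by norm_num) h2 k h1
    linarith

theorem f9 (k : ℕ) (h : 9 < k) : p k < p 9 := by
  have hl := l9
  rcases Nat.lt_or_ge k 33 with h1 | h1
  · interval_cases k
    · have := u10; norm_num at this hl ⊢; linarith
    · have := u11; norm_num at this hl ⊢; linarith
    · have := u12; norm_num at this hl ⊢; linarith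
    · have := u13; norm_num at this hl ⊢; linarith
    · have := u14; norm_num at this hl ⊢; linarith
    · have := u15; norm_num at this hl ⊢; linarith
    · have := u16; norm_num at this hl ⊢; linarith
    · have := u17; norm_num at this hl ⊢; linarith
    · have := u18; norm_num at this hl ⊢; linarith
    · have := u19; norm_num at this hl ⊢; linarith
    · have := u20; norm_num at this hl ⊢; linarith
    · have := u21; norm_num at this hl ⊢; linarith
    · have := u22; norm_num at this hl ⊢; linarith
    · have := u23; norm_num at this hl ⊢; linarith
    · have := u24; norm_num at this hl ⊢; linarith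
    · have := u25; norm_num at this hl ⊢; linarith
    · have := u26; norm_num at this hl ⊢; linarith
    · have := u27; norm_num at this hl ⊢; linarith
    · have := u28; norm_num at this hl ⊢; linarith
    · have := u29; norm_num at this hl ⊢; linarith
    · have := u30; norm_num at this hl ⊢; linarith
    · have := u31; norm_num at this hl ⊢; linarith
    · have := u32; norm_num at this hl ⊢; linarith
  · have h2 : ∑ i ∈ range 33, p i ≤ ((33 : ℕ) : ℝ) * (3851299 / 10000000) := by
      simp only [Finset.sum_range_succ, Finset.sum_range_zero]
      push_cast
      linarith [p_zero_le, u1, u2, u3, u4, u5, u6, u7, u8, u9, u10, u11, u12, u13, u14, u15, u16, u17, u18, u19, u20, u21, u22, u23, u24, u25, u26, u27, u28, u29, u30, u31, u32]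
    have h3 := later (by norm_num) h2 k h1
    linarith

theorem f10 (k : ℕ) (h : 10 < k) : p k < p 10 := by
  have hl := l10
  rcases Nat.lt_or_ge k 36 with h1 | h1
  · interval_cases k
    · have := u11; norm_num at this hl ⊢; linarith
    · have := u12; norm_num at this hl ⊢; linarith
    · have := u13; norm_num at this hl ⊢; linarith
    · have := u14; norm_num at this hl ⊢; linarith
    · have := u15; norm_num at this hl ⊢; linarith
    · have := u16; norm_num at this hl ⊢; linarith
    · have := u17; norm_num at this hl ⊢; linarith
    · have := u18; norm_num at this hl ⊢; linarith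
    · have := u19; norm_num at this hl ⊢; linarith
    · have := u20; norm_num at this hl ⊢; linarith
    · have := u21; norm_num at this hl ⊢; linarith
    · have := u22; norm_num at this hl ⊢; linarith
    · have := u23; norm_num at this hl ⊢; linarith
    · have := u24; norm_num at this hl ⊢; linarith
    · have := u25; norm_num at this hl ⊢; linarith
    · have := u26; norm_num at this hl ⊢; linarith
    · have := u27; norm_num at this hl ⊢; linarith
    · have := u28; norm_num at this hl ⊢; linarith
    · have := u29; norm_num at this hl ⊢; linarith
    · have := u30; norm_num at this hl ⊢; linarith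
    · have := u31; norm_num at this hl ⊢; linarith
    · have := u32; norm_num at this hl ⊢; linarith
    · have := u33; norm_num at this hl ⊢; linarith
    · have := u34; norm_num at this hl ⊢; linarith
    · have := u35; norm_num at this hl ⊢; linarith
  · have h2 : ∑ i ∈ range 36, p i ≤ ((36 : ℕ) : ℝ) * (3768269 / 10000000) := by
      simp only [Finset.sum_range_succ, Finset.sum_range_zero]
      push_cast
      linarith [p_zero_le, u1, u2, u3, u4, u5, u6, u7, u8, u9, u10, u11, u12, u13, u14, u15, u16, u17, u18, u19, u20, u21, u22, u23, u24, u25, u26, u27, u28, u29, u30, u31, u32, u33, u34, u35]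
    have h3 := later (by norm_num) h2 k h1
    linarith

theorem first (j k : ℕ) (h1 : 1 ≤ j) (h2 : j ≤ 10) (h : j < k) : p k < p j := by
  interval_cases j
  · exact f1 k h
  · exact f2 k h
  · exact f3 k h
  · exact f4 k h
  · exact f5 k h
  · exact f6 k h
  · exact f7 k h
  · exact f8 k h
  · exact f9 k h
  · exact f10 k h

end Pool.Agent.Lib.MP_134bf7_pr.FC
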