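import Pool.Agent.Lib.MP_134bf7_pr.FC.B

/-!
# Upper bounds for `p k`, `1 ≤ k ≤ 24`
-/

namespace Pool.Agent.Lib.MP_134bf7_pr.FC

open Pool.Agent.Lib.MP_134bf7_pr.RL

theorem u1 : p 1 ≤ 6321213 / 10000000 := by
  have h := upper (k := 1) (thr := 1000000) (u := 6321213) (by decide +kernel)
  exact_mod_cast h

theorem u2 : p 2 ≤ 5537411 / 10000000 := by
  have h := upper (k := 2) (thr := 1000000) (u := 5537411) (by decide +kernel)
  exact_mod_cast h

theorem u3 : p 3 ≤ 4965887 / 10000000 := by
  have h := upper (k := 3) (thr := 1000000) (u := 4965887) (by decide +kernel)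
  exact_mod_cast h

theorem u4 : p 4 ≤ 4695599 / 10000000 := by
  have h := upper (k := 4) (thr := 1000000) (u := 4695599) (by decide +kernel)
  exact_mod_cast h

theorem u5 : p 5 ≤ 4414602 / 10000000 := by
  have h := upper (k := 5) (thr := 1000000) (u := 4414602) (by decide +kernel)
  exact_mod_cast h

theorem u6 : p 6 ≤ 4250608 / 10000000 := by
  have h := upper (k := 6) (thr := 1000000) (u := 4250608) (by decide +kernel)
  exact_mod_cast h

theorem u7 : p 7 ≤ 4084833 / 10000000 := by
  have h := upper (k := 7) (thr := 1000000) (u := 4084833) (by decide +kernel)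
  exact_mod_cast h

theorem u8 : p 8 ≤ 3972799 / 10000000 := by
  have h := upper (k := 8) (thr := 1000000) (u := 3972799) (by decide +kernel)
  exact_mod_cast h

theorem u9 : p 9 ≤ 3851669 / 10000000 := by
  have h := upper (k := 9) (thr := 1000000) (u := 3851669) (by decide +kernel)
  exact_mod_cast h

theorem u10 : p 10 ≤ 3768751 / 10000000 := by
  have h := upper (k := 10) (thr := 10000000) (u := 3768751) (by decide +kernel)
  exact_mod_cast h

theorem u11 : p 11 ≤ 3677372 / 10000000 := by
  have h := upper (k := 11) (thr := 10000000) (u := 3677372) (by decide +kernel)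
  exact_mod_cast h

theorem u12 : p 12 ≤ 3612007 / 10000000 := by
  have h := upper (k := 12) (thr := 20000000) (u := 3612007) (by decide +kernel)
  exact_mod_cast h

theorem u13 : p 13 ≤ 3539745 / 10000000 := by
  have h := upper (k := 13) (thr := 10000000) (u := 3539745) (by decide +kernel)
  exact_mod_cast h

theorem u14 : p 14 ≤ 3485875 / 10000000 := by
  have h := upper (k := 14) (thr := 30000000) (u := 3485875) (by decide +kernel)
  exact_mod_cast h

theorem u15 : p 15 ≤ 3425958 / 10000000 := by
  have h := upper (k := 15) (thr := 20000000) (u := 3425958) (by decide +kernel)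
  exact_mod_cast h

theorem u16 : p 16 ≤ 3381100 / 10000000 := by
  have h := upper (k := 16) (thr := 20000000) (u := 3381100) (by decide +kernel)
  exact_mod_cast h

theorem u17 : p 17 ≤ 3330908 / 10000000 := by
  have h := upper (k := 17) (thr := 30000000) (u := 3330908) (by decide +kernel)
  exact_mod_cast h

theorem u18 : p 18 ≤ 3291922 / 10000000 := by
  have h := upper (k := 18) (thr := 30000000) (u := 3291922) (by decide +kernel)
  exact_mod_cast h

theorem u19 : p 19 ≤ 3249211 / 10000000 := by
  have h := upper (k := 19) (thr := 30000000) (u := 3249211) (by decide +kernel)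
  exact_mod_cast h

theorem u20 : p 20 ≤ 3216239 / 10000000 := by
  have h := upper (k := 20) (thr := 40000000) (u := 3216239) (by decide +kernel)
  exact_mod_cast h

theorem u21 : p 21 ≤ 3178123 / 10000000 := by
  have h := upper (k := 21) (thr := 30000000) (u := 3178123) (by decide +kernel)
  exact_mod_cast h

theorem u22 : p 22 ≤ 3150160 / 10000000 := by
  have h := upper (k := 22) (thr := 40000000) (u := 3150160) (by decide +kernel)
  exact_mod_cast h

theorem u23 : p 23 ≤ 3118188 / 10000000 := by
  have h := upper (k := 23) (thr := 40000000) (u := 3118188) (by decide +kernel)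
  exact_mod_cast h

theorem u24 : p 24 ≤ 3094955 / 10000000 := by
  have h := upper (k := 24) (thr := 50000000) (u := 3094955) (by decide +kernel)
  exact_mod_cast h

end Pool.Agent.Lib.MP_134bf7_pr.FC
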